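import Pool.Agent.E8helper17.CND.S

/-! Piece SSPLIT of the project CND (helper17), MP_03af38_co. -/

namespace E8helper14.CND

open H17CND

theorem two_others : ∀ i j : Fin 4, i ≠ j →
    ∃ k l : Fin 4, i ≠ k ∧ i ≠ l ∧ j ≠ k ∧ j ≠ l ∧ k ≠ l := by decide

theorem two_idx : ∀ i : Fin 4, ∃ a b : Fin 4, i ≠ a ∧ i ≠ b ∧ a ≠ b := by decide

theorem one_of : ∀ i j k l m : Fin 4, i ≠ j → i ≠ k → i ≠ l → j ≠ k → j ≠ l → k ≠ l → i ≠ m →
    m = j ∨ m = k ∨ m = l := by decide

theorem adj_xb {β : Type} (H : SimpleGraph β) (τ : Fin 4 → β) (i j : Fin 4) (h : i ≠ j) (s : Bool) :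
    (comp H τ).Adj (CV.x i j h) (CV.b i s (τ j)) := by
  simp [comp, cadj]

theorem adj_bx {β : Type} (H : SimpleGraph β) (τ : Fin 4 → β) (i j : Fin 4) (h : i ≠ j) (s : Bool) :
    (comp H τ).Adj (CV.b i s (τ j)) (CV.x i j h) := (adj_xb H τ i j h s).symm

theorem adj_bb {β : Type} (H : SimpleGraph β) (τ : Fin 4 → β) (i : Fin 4) :
    (comp H τ).Adj (CV.b i false (τ i)) (CV.b i true (τ i)) := by
  simp [comp, cadj]

theorem SSPLIT (hA : S_APP) (_hR : S_REV) (h1 : S_ONE) (hB : S_BLP) : S_SSPLIT := by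
  intro g B i v hv
  have hτ : ∀ a b, a ≠ b → B.τ a ≠ B.τ b := fun a b hab h => hab (B.inj h)
  rcases hv with ⟨s, h, rfl⟩ | ⟨j, hj, rfl⟩
  · -- a vertex of a copy
    obtain ⟨j, hj, hne⟩ : ∃ j, i ≠ j ∧ h ≠ B.τ j := by
      obtain ⟨a, b, ha, hb, hab⟩ := two_idx i
      by_cases h1 : h = B.τ a
      · exact ⟨b, hb, fun h2 => hτ a b hab (h1.symm.trans h2)⟩
      · exact ⟨a, ha, h1⟩
    obtain ⟨k, l, hk, hl, hjk, hjl, hkl⟩ := two_others i j hj
    refine ⟨j, k, l, hj, hk, hl, Bl i s ∪ {CV.x i j hj},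
      (({CV.x i k hk} : Set (CV B.β)) ∪ Bl i (!s)) ∪ {CV.x i l hl}, hjk, hjl, hkl, ?_, ?_, ?_, ?_⟩
    · rw [Set.disjoint_left]
      rintro w (⟨q, rfl⟩ | hw) h2
      · rcases h2 with (h2 | ⟨q', h2⟩) | h2
        · simp at h2
        · simp only [CV.b.injEq] at h2
          obtain ⟨_, h3, _⟩ := h2
          cases s <;> simp at h3
        · simp at h2
      · simp only [Set.mem_singleton_iff] at hw
        subst hw
        rcases h2 with (h2 | ⟨q', h2⟩) | h2
        · simp only [Set.mem_singleton_iff, CV.x.injEq, true_and] at h2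
          exact hjk h2
        · simp at h2
        · simp only [Set.mem_singleton_iff, CV.x.injEq, true_and] at h2
          exact hjl h2
    · ext w
      constructor
      · rintro ((⟨q, rfl⟩ | hw) | ((hw | ⟨q, rfl⟩) | hw))
        · exact Or.inl ⟨_, _, rfl⟩
        · rw [Set.mem_singleton_iff] at hw; subst hw; exact Or.inr ⟨_, _, rfl⟩
        · rw [Set.mem_singleton_iff] at hw; subst hw; exact Or.inr ⟨_, _, rfl⟩
        · exact Or.inl ⟨_, _, rfl⟩
        · rw [Set.mem_singleton_iff] at hw; subst hw; exact Or.inr ⟨_, _, rfl⟩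
      · rintro (⟨s', q, rfl⟩ | ⟨m, hm, rfl⟩)
        · by_cases hs : s' = s
          · subst hs; exact Or.inl (Or.inl ⟨q, rfl⟩)
          · have : s' = !s := by cases s <;> cases s' <;> simp at hs ⊢
            subst this
            exact Or.inr (Or.inl (Or.inr ⟨q, rfl⟩))
        · rcases one_of i j k l m hj hk hl hjk hjl hkl hm with rfl | rfl | rfl
          · exact Or.inl (Or.inr rfl)
          · exact Or.inr (Or.inl (Or.inl rfl))
          · exact Or.inr (Or.inr rfl)
    · refine hA _ _ _ _ _ _ _ _ (hB g B i j s h hne) (h1 _ _ _) (adj_bx _ _ _ _ _ _) ?_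
      rw [Set.disjoint_left]
      rintro w ⟨q, rfl⟩ h2
      simp at h2
    · have e1 := hA _ _ _ _ _ _ _ _ (h1 _ (comp B.H B.τ) (CV.x i k hk))
        (hB g B i l (!s) (B.τ k) (hτ k l hkl)) (adj_xb _ _ _ _ _ _)
        (by
          rw [Set.disjoint_left]
          rintro w hw ⟨q, h2⟩
          rw [Set.mem_singleton_iff] at hw
          subst hw
          simp at h2)
      refine hA _ _ _ _ _ _ _ _ e1 (h1 _ _ _) (adj_bx _ _ _ _ _ _) ?_
      rw [Set.disjoint_left]
      rintro w (hw | ⟨q, rfl⟩) h2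
      · rw [Set.mem_singleton_iff] at hw h2
        subst hw
        simp only [CV.x.injEq, true_and] at h2
        exact hkl h2
      · simp at h2
  · -- a port
    obtain ⟨k, l, hk, hl, hjk, hjl, hkl⟩ := two_others i j hj
    refine ⟨j, k, l, hj, hk, hl, {CV.x i j hj},
      ((({CV.x i k hk} : Set (CV B.β)) ∪ Bl i false) ∪ Bl i true) ∪ {CV.x i l hl},
      hjk, hjl, hkl, ?_, ?_, h1 _ _ _, ?_⟩
    · rw [Set.disjoint_left]
      intro w hw h2
      rw [Set.mem_singleton_iff] at hw
      subst hw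
      rcases h2 with ((h2 | ⟨q', h2⟩) | ⟨q', h2⟩) | h2
      · simp only [Set.mem_singleton_iff, CV.x.injEq, true_and] at h2
        exact hjk h2
      · simp at h2
      · simp at h2
      · simp only [Set.mem_singleton_iff, CV.x.injEq, true_and] at h2
        exact hjl h2
    · ext w
      constructor
      · rintro (hw | (((hw | ⟨q, rfl⟩) | ⟨q, rfl⟩) | hw))
        · rw [Set.mem_singleton_iff] at hw; subst hw; exact Or.inr ⟨_, _, rfl⟩
        · rw [Set.mem_singleton_iff] at hw; subst hw; exact Or.inr ⟨_, _, rfl⟩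
        · exact Or.inl ⟨_, _, rfl⟩
        · exact Or.inl ⟨_, _, rfl⟩
        · rw [Set.mem_singleton_iff] at hw; subst hw; exact Or.inr ⟨_, _, rfl⟩
      · rintro (⟨s', q, rfl⟩ | ⟨m, hm, rfl⟩)
        · cases s'
          · exact Or.inr (Or.inl (Or.inl (Or.inr ⟨q, rfl⟩)))
          · exact Or.inr (Or.inl (Or.inr ⟨q, rfl⟩))
        · rcases one_of i j k l m hj hk hl hjk hjl hkl hm with rfl | rfl | rfl
          · exact Or.inl rfl
          · exact Or.inr (Or.inl (Or.inl (Or.inl rfl)))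
          · exact Or.inr (Or.inr rfl)
    · have e1 := hA _ _ _ _ _ _ _ _ (h1 _ (comp B.H B.τ) (CV.x i k hk))
        (hB g B i i false (B.τ k) (hτ k i hk.symm)) (adj_xb _ _ _ _ _ _)
        (by
          rw [Set.disjoint_left]
          rintro w hw ⟨q, h2⟩
          rw [Set.mem_singleton_iff] at hw
          subst hw
          simp at h2)
      have e2 := hA _ _ _ _ _ _ _ _ e1
        (hB g B i l true (B.τ i) (hτ i l hl)) (adj_bb _ _ _)
        (by
          rw [Set.disjoint_left]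
          rintro w (hw | ⟨q, rfl⟩) ⟨q', h2⟩
          · rw [Set.mem_singleton_iff] at hw
            subst hw
            simp at h2
          · simp at h2)
      refine hA _ _ _ _ _ _ _ _ e2 (h1 _ _ _) (adj_bx _ _ _ _ _ _) ?_
      rw [Set.disjoint_left]
      rintro w ((hw | ⟨q, rfl⟩) | ⟨q, rfl⟩) h2
      · rw [Set.mem_singleton_iff] at hw h2
        subst hw
        simp only [CV.x.injEq, true_and] at h2
        exact hkl h2
      · simp at h2
      · simp at h2

end E8helper14.CND
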